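import Pool.Agent.Results.MP_128c63_an.ArcLimits
import Pool.Agent.Y260.MI.Core

/-!
# MP_128c63: every connected set that ends at `ζ` accumulates at the distinguished homomorphism

`V` is a bounded open set, `φ` a weak-star continuous character of `H^∞(V)` in the fibre over the
boundary point `ζ` (definitions of `Results/MP_128c63_an/ArcLimits.lean`).

The theorem is quantitative and uniform on the unit ball of `H^∞(V)`: if `E ⊆ V` is connected and
has two points at distance at least `c r`, one of them in the disc of radius `r` around `ζ`, then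
(for small `r`) `E` contains a point of the disc of radius `2 r` at which any `m` given functions of
norm at most one are `η`-close to their values at `φ`.  In particular

* `φ` belongs to the closure, in the maximal ideal space, of every connected subset of `V` that has
  `ζ` in its closure, and limits along such sets are the values at `φ`;
* `φ` is a cluster point of the point evaluations along any arc in `V` terminating at `ζ`, and the
  limit of `f` along the arc is `φ f` whenever it exists (Q1).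
-/

set_option autoImplicit false

open MeasureTheory Set Metric Filter Topology

namespace Pool.Agent.Results.MP_128c63_an.ConnectedSetsAccumulate

open Pool.Agent.Results.MP_128c63_an.ArcLimits

/-- The evaluations at the points of `E`, as functions on `H^∞(V)`. -/
def evals (V E : Set ℂ) : Set (HInf V → ℂ) := {χ | ∃ z : V, (z : ℂ) ∈ E ∧ χ = fun f => f.1 z}

/-- For `η, c > 0` and `m`, if `r` is small, then any connected subset of `V` with two points at
distance at least `c r`, one of them at distance less than `r` from `ζ`, contains a point at distance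
less than `2 r` from `ζ` at which `m` given functions of norm at most one are `η`-close to their
values at `φ`. -/
def UniformlyNear (V : Set ℂ) (ζ : ℂ) (φ : HInf V →ₐ[ℂ] ℂ) : Prop :=
  ∀ (m : ℕ) (η c : ℝ), 0 < η → 0 < c → ∃ r₀ : ℝ, 0 < r₀ ∧ ∀ r, 0 < r → r < r₀ →
    ∀ f : Fin m → HInf V, (∀ i z, ‖(f i).1 z‖ ≤ 1) →
    ∀ E : Set ℂ, E ⊆ V → IsPreconnected E → ∀ x ∈ E, ∀ y ∈ E, ‖x - ζ‖ < r → c * r ≤ ‖x - y‖ →
      ∃ z : V, (z : ℂ) ∈ E ∧ ‖(z : ℂ) - ζ‖ < 2 * r ∧ ∀ i, ‖(f i).1 z - φ (f i)‖ < η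

/-- `φ` is in the closure of (the evaluations at the points of) every connected subset of `V` that
has `ζ` in its closure, and limits at `ζ` along such sets are the values at `φ`. -/
def InClosures (V : Set ℂ) (ζ : ℂ) (φ : HInf V →ₐ[ℂ] ℂ) : Prop :=
  ∀ E : Set ℂ, E ⊆ V → IsPreconnected E → ζ ∈ closure E →
    (fun f => φ f) ∈ closure (evals V E) ∧
    ∀ (f : HInf V) (L : ℂ),
      Tendsto (fun z : V => f.1 z) (comap Subtype.val (𝓝[E] ζ)) (𝓝 L) → L = φ f

/-- `φ` is a cluster point of the evaluations along every arc in `V` terminating at `ζ`, and limits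
along such arcs are the values at `φ` (the statement of Q1). -/
def ClusterAlongArcs (V : Set ℂ) (ζ : ℂ) (φ : HInf V →ₐ[ℂ] ℂ) : Prop :=
  ∀ (γ : Ico (0 : ℝ) 1 → V), Continuous γ →
    Tendsto (fun t => (γ t : ℂ)) (comap Subtype.val (𝓝 (1 : ℝ))) (𝓝 ζ) →
    MapClusterPt (fun f => φ f) (comap Subtype.val (𝓝 (1 : ℝ)))
      (fun t => (fun f => f.1 (γ t) : HInf V → ℂ)) ∧
    ∀ (f : HInf V) (L : ℂ),
      Tendsto (fun t => f.1 (γ t)) (comap Subtype.val (𝓝 (1 : ℝ))) (𝓝 L) → L = φ f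

/-- a preconnected set with a point close to `ζ` and a second point at distance at least `d` -/
theorem reach2 (N E : Set ℂ) (hN : IsOpen N) (hE : IsPreconnected E) (ζ : ℂ) (R d : ℝ)
    (hEN : ∀ z ∈ E, ‖z - ζ‖ < R → z ∈ N) (x y : ℂ) (hx : x ∈ E) (hy : y ∈ E) (hd : 0 < d)
    (hxR : ‖x - ζ‖ + d < R) (hxy : d ≤ ‖x - y‖) :
    ∃ Γ : ℝ → ℂ, ContinuousOn Γ (Icc 0 1) ∧ (∀ t ∈ Icc (0 : ℝ) 1, Γ t ∈ N) ∧
      d ≤ ‖Γ 0 - Γ 1‖ := by
  have hxN : x ∈ N := hEN x hx (by linarith)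
  obtain ⟨C, hCd⟩ : ∃ C, C = connectedComponentIn N x := ⟨_, rfl⟩
  have hC : IsOpen C := by rw [hCd]; exact hN.connectedComponentIn
  have hxC : x ∈ C := by rw [hCd]; exact mem_connectedComponentIn hxN
  have hCc : IsPreconnected C := by rw [hCd]; exact isPreconnected_connectedComponentIn
  have hCN : C ⊆ N := by rw [hCd]; exact connectedComponentIn_subset N x
  have hex : ∃ w ∈ C, d ≤ ‖x - w‖ := by
    by_contra hcon
    push Not at hcon
    have hcl : ∀ z ∈ closure C, ‖x - z‖ ≤ d := by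
      intro z hz
      have h1 : closure C ⊆ {z : ℂ | ‖x - z‖ ≤ d} :=
        closure_minimal (fun w hw => (hcon w hw).le) (isClosed_le (by fun_prop) continuous_const)
      exact h1 hz
    have hcl2 : ∀ z ∈ N, z ∈ closure C → z ∈ C := by
      intro z hzN hz
      have hC' : IsOpen (connectedComponentIn N z) := hN.connectedComponentIn
      obtain ⟨w, hw1, hw2⟩ := mem_closure_iff.1 hz _ hC' (mem_connectedComponentIn hzN)
      rw [hCd] at hw2
      have e1 := connectedComponentIn_eq hw1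
      have e2 := connectedComponentIn_eq hw2
      rw [hCd, e2, ← e1]
      exact mem_connectedComponentIn hzN
    have hsub : E ⊆ C ∪ (closure C)ᶜ := by
      intro z hz
      by_cases h : z ∈ closure C
      · left
        refine hcl2 z (hEN z hz ?_) h
        have h1 := hcl z h
        have h2 : ‖z - ζ‖ ≤ ‖x - ζ‖ + ‖x - z‖ := by
          calc ‖z - ζ‖ = ‖(x - ζ) - (x - z)‖ := by ring_nf
            _ ≤ _ := norm_sub_le _ _
        linarith
      · right
        exact h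
    have hdis : Disjoint C (closure C)ᶜ :=
      disjoint_compl_right_iff_subset.2 subset_closure
    have hEC := hE.subset_left_of_subset_union hC isClosed_closure.isOpen_compl hdis hsub
      ⟨x, hx, hxC⟩
    have := hcon y (hEC hy)
    linarith
  obtain ⟨w, hwC, hw⟩ := hex
  obtain ⟨Γ, h1, h2, h3, h4⟩ := Pool.Agent.Y260.MI.joined N C hN hCc hCN x w hxC hwC
  refine ⟨Γ, h1, h2, ?_⟩
  rw [h3, h4]
  exact hw

/-- the data of a finite family of functions -/
theorem setup (V : Set ℂ) (hVo : IsOpen V) (hVb : Bornology.IsBounded V) (ζ : ℂ)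
    (φ : HInf V →ₐ[ℂ] ℂ) (hφζ : φ (coord V hVb) = ζ) (g : ℂ → ℂ) (hg : Integrable g)
    (hg0 : ∀ z ∉ V, g z = 0)
    (hφ : ∀ (f : HInf V) (F : ℂ → ℂ), (∀ z : V, F z = f.1 z) → φ f = ∫ z, F z * g z)
    (f : HInf V) (A : ℝ) (hA : ∀ z, ‖f.1 z‖ ≤ A) :
    ∃ F : ℂ → ℂ, ContinuousOn F V ∧ (∀ z : V, F z = f.1 z - φ f) ∧
      (∀ z ∈ V, ‖F z‖ ≤ |A| * (1 + ∫ z, ‖g z‖)) ∧
      ∀ p ∈ V, Integrable (fun z => ‖g z‖ / ‖z - p‖) →
      - F p = (ζ - p) * ((∫ z, F z * g z / (z - p)) - F p * ∫ z, g z / (z - p)) := by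
  obtain ⟨⟨F, hF, hFf⟩, -⟩ := f.2
  have hφn : ‖φ f‖ ≤ |A| * ∫ z, ‖g z‖ := by
    rw [hφ f F hFf, ← integral_const_mul]
    refine norm_integral_le_of_norm_le (hg.norm.const_mul |A|) (Eventually.of_forall fun z => ?_)
    by_cases hz : z ∈ V
    · rw [norm_mul]
      refine mul_le_mul_of_nonneg_right ?_ (norm_nonneg _)
      have := hA ⟨z, hz⟩
      rw [← hFf] at this
      exact this.trans (le_abs_self A)
    · rw [hg0 z hz]
      simp
  have hb : ∀ z ∈ V, ‖F z - φ f‖ ≤ |A| * (1 + ∫ z, ‖g z‖) := by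
    intro z hz
    have h1 : ‖F z‖ ≤ |A| := by
      have := hA ⟨z, hz⟩
      rw [← hFf] at this
      exact this.trans (le_abs_self A)
    have h2 := norm_sub_le (F z) (φ f)
    have h3 : |A| * (1 + ∫ z, ‖g z‖) = |A| + |A| * ∫ z, ‖g z‖ := by ring
    rw [h3]
    linarith
  refine ⟨fun z => F z - φ f, hF.continuousOn.sub continuousOn_const, fun z => ?_, hb, ?_⟩
  · show F z - φ f = _
    rw [hFf]
  · intro p hp hint
    have hf0 : φ (f - algebraMap ℂ (HInf V) (φ f)) = 0 := by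
      rw [map_sub, AlgHom.commutes]
      simp
    have := resolvent V hVo hVb ζ φ hφζ g hg hg0 hφ (f - algebraMap ℂ (HInf V) (φ f))
      (fun z => F z - φ f) (hF.sub_const _) (fun z => by
        show F z - φ f = f.1 z - φ f
        rw [hFf]) _ hb p hp hint
    rw [hf0, zero_sub] at this
    exact this

/-- a connected set that accumulates at `ζ` contains points at which finitely many functions are
close to their values at `φ` -/
theorem exists_near (V : Set ℂ) (hVo : IsOpen V) (hVb : Bornology.IsBounded V) (ζ : ℂ)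
    (hζ : ζ ∈ frontier V) (φ : HInf V →ₐ[ℂ] ℂ) (hφζ : φ (coord V hVb) = ζ)
    (hφc : @Continuous _ _ (weakStar V) inferInstance φ) (E : Set ℂ) (hEV : E ⊆ V)
    (hE : IsPreconnected E) (hζE : ζ ∈ closure E) (ι : Type) [Fintype ι] (f : ι → HInf V) (η : ℝ)
    (hη : 0 < η) : ∃ z : V, (z : ℂ) ∈ E ∧ ∑ i, ‖(f i).1 z - φ (f i)‖ ≤ η := by
  by_contra hcon
  push Not at hcon
  obtain ⟨g, hg, hg0, hφ⟩ := exists_density V hVo φ hφc
  have hζV : ζ ∉ V := by
    intro h
    rw [hVo.frontier_eq] at hζ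
    exact hζ.2 h
  have hex : ∀ i, ∃ A : ℝ, ∀ z, ‖(f i).1 z‖ ≤ A := fun i => (f i).2.2
  choose A hA using hex
  have hset := fun i => setup V hVo hVb ζ φ hφζ g hg hg0 hφ (f i) (A i) (hA i)
  choose F hF1 hF2 hF3 hF4 using hset
  obtain ⟨M, hM⟩ : ∃ M : ℝ, M = 1 + ∑ i, |A i| * (1 + ∫ z, ‖g z‖) := ⟨_, rfl⟩
  have hI0 : 0 ≤ ∫ z, ‖g z‖ := integral_nonneg fun z => norm_nonneg _
  have hMi : ∀ i, |A i| * (1 + ∫ z, ‖g z‖) ≤ M := by
    intro i
    have := Finset.single_le_sum (f := fun i => |A i| * (1 + ∫ z, ‖g z‖))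
      (fun i _ => by positivity) (Finset.mem_univ i)
    rw [hM]
    linarith
  have hM0 : 0 < M := by
    have : 0 ≤ ∑ i, |A i| * (1 + ∫ z, ‖g z‖) := Finset.sum_nonneg fun i _ => by positivity
    rw [hM]
    linarith
  obtain ⟨c, hc, hkey⟩ := Pool.Agent.Y260.MI.key ι
  have hW : (0 : ℝ) < (Fintype.card ι + 1) * M := by positivity
  obtain ⟨r0, hr0, hsm⟩ := Pool.Agent.Y260.MI.small g hg ζ
    (min (c * η / (12 * ((Fintype.card ι + 1) * M))) (η / (24 * ((Fintype.card ι + 1) * M))))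
    (by positivity)
  obtain ⟨x0, hx0⟩ : E.Nonempty := closure_nonempty_iff.1 ⟨ζ, hζE⟩
  have hd : 0 < ‖x0 - ζ‖ := by
    rw [norm_pos_iff, sub_ne_zero]
    intro h
    exact hζV (h ▸ hEV hx0)
  obtain ⟨ρ, hρ, hρ1, hρ2⟩ : ∃ ρ : ℝ, 0 < ρ ∧ ρ < r0 ∧ 2 * ρ < ‖x0 - ζ‖ := by
    refine ⟨min (r0 / 2) (‖x0 - ζ‖ / 4), by positivity, ?_, ?_⟩
    · have := min_le_left (r0 / 2) (‖x0 - ζ‖ / 4)
      linarith
    · have := min_le_right (r0 / 2) (‖x0 - ζ‖ / 4)
      linarith
  obtain ⟨hs1, hs2⟩ := hsm ρ hρ hρ1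
  obtain ⟨x, hxE, hx⟩ := Metric.mem_closure_iff.1 hζE ρ hρ
  rw [dist_comm, dist_eq_norm] at hx
  have hcF : ContinuousOn (fun z => ∑ i, ‖F i z‖) V :=
    continuousOn_finsetSum _ fun i _ => (hF1 i).norm
  obtain ⟨Γ, hΓ1, hΓ2, hΓ3⟩ := Pool.Agent.Y260.MI.reach
    ((V ∩ (fun z => ∑ i, ‖F i z‖) ⁻¹' {w | η < w}) ∩ ball ζ (3 * ρ)) E
    ((hcF.isOpen_inter_preimage hVo (isOpen_lt continuous_const continuous_id)).inter isOpen_ball)
    hE ζ ρ hρ (by
      intro z hz hz3
      refine ⟨⟨hEV hz, ?_⟩, by rwa [mem_ball, dist_eq_norm]⟩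
      show η < ∑ i, ‖F i z‖
      have := hcon ⟨z, hEV hz⟩ hz
      rw [Finset.sum_congr rfl fun i _ => by rw [hF2 i ⟨z, hEV hz⟩]]
      exact this) x x0 hxE hx0 hx hρ2
  have h1 := hkey V hVo g hg hg0 F hF1 M hM0 (fun i z hz => (hF3 i z hz).trans (hMi i)) ζ η hη hF4 ρ
    hρ (hs2.trans_le (min_le_right _ _)) Γ 0 1 zero_le_one hΓ1 (fun t ht => hΓ2 t ht)
  have h2 := hs1.trans_le (min_le_left _ _)
  have h3 : 12 * ρ * ((Fintype.card ι + 1) * M) / η * ∫ z in ball ζ (8 * ρ), ‖g z‖ <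
      12 * ρ * ((Fintype.card ι + 1) * M) / η * (c * η / (12 * ((Fintype.card ι + 1) * M))) :=
    mul_lt_mul_of_pos_left h2 (by positivity)
  have h4 : 12 * ρ * ((Fintype.card ι + 1) * M) / η *
      (c * η / (12 * ((Fintype.card ι + 1) * M))) = c * ρ := by
    field_simp
  rw [h4] at h3
  have h5 := mul_lt_mul_of_pos_left hΓ3 hc
  linarith

/-- **Connected sets accumulate at the distinguished homomorphism.** -/
theorem result : ∀ (V : Set ℂ) (_ : IsOpen V) (hVb : Bornology.IsBounded V) (ζ : ℂ)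
    (_ : ζ ∈ frontier V) (φ : HInf V →ₐ[ℂ] ℂ) (_ : φ (coord V hVb) = ζ)
    (_ : @Continuous _ _ (weakStar V) inferInstance φ),
    UniformlyNear V ζ φ ∧ InClosures V ζ φ ∧ ClusterAlongArcs V ζ φ := by
  intro V hVo hVb ζ hζ φ hφζ hφc
  have hζV : ζ ∉ V := by
    intro h
    rw [hVo.frontier_eq] at hζ
    exact hζ.2 h
  -- closure in the maximal ideal space
  have hcl : ∀ E : Set ℂ, E ⊆ V → IsPreconnected E → ζ ∈ closure E →
      (fun f => φ f) ∈ closure (evals V E) := by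
    intro E hEV hE hζE
    rw [mem_closure_iff_nhds]
    intro t ht
    rw [nhds_pi, Filter.mem_pi] at ht
    obtain ⟨I, hI, u, hu, hsub⟩ := ht
    have hev : ∀ᶠ ε in 𝓝[>] (0 : ℝ), ∀ f ∈ I, ball (φ f) ε ⊆ u f := by
      rw [Filter.eventually_all_finite hI]
      intro f _
      obtain ⟨e, he, hb⟩ := Metric.mem_nhds_iff.1 (hu f)
      filter_upwards [Ioo_mem_nhdsGT he] with ε hε
      exact (ball_subset_ball hε.2.le).trans hb
    obtain ⟨ε, hε1, hε2⟩ := (hev.and eventually_mem_nhdsWithin).exists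
    have hε0 : 0 < ε := hε2
    have := hI.fintype
    obtain ⟨z, hz, hzs⟩ := exists_near V hVo hVb ζ hζ φ hφζ hφc E hEV hE hζE I
      (fun f => (f : HInf V)) (ε / 2) (by positivity)
    refine ⟨fun f => f.1 z, hsub ?_, z, hz, rfl⟩
    intro f hf
    refine hε1 f hf ?_
    rw [mem_ball, dist_eq_norm]
    have := Finset.single_le_sum (f := fun f : I => ‖(f : HInf V).1 z - φ (f : HInf V)‖)
      (fun _ _ => norm_nonneg _) (Finset.mem_univ (⟨f, hf⟩ : I))
    simp only at this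
    linarith
  refine ⟨?_, ?_, ?_⟩
  · -- the quantitative form
    intro m η c hη hc
    obtain ⟨g, hg, hg0, hφ⟩ := exists_density V hVo φ hφc
    obtain ⟨c0, hc0, hkey⟩ := Pool.Agent.Y260.MI.key (Fin m)
    obtain ⟨M, hM⟩ : ∃ M : ℝ, M = 1 * (1 + ∫ z, ‖g z‖) := ⟨_, rfl⟩
    have hI0 : 0 ≤ ∫ z, ‖g z‖ := integral_nonneg fun z => norm_nonneg _
    have hM0 : 0 < M := by rw [hM]; positivity
    obtain ⟨c1, hc1d⟩ : ∃ c1 : ℝ, c1 = min c (1 / 2) := ⟨_, rfl⟩
    have hc1 : 0 < c1 := by rw [hc1d]; positivity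
    have hc1c : c1 ≤ c := by rw [hc1d]; exact min_le_left _ _
    have hc1h : c1 ≤ 1 / 2 := by rw [hc1d]; exact min_le_right _ _
    obtain ⟨r0, hr0, hsm⟩ := Pool.Agent.Y260.MI.small g hg ζ
      (min (c0 * c1 * (η / 2) / (8 * ((Fintype.card (Fin m) + 1) * M)))
        ((η / 2) / (24 * ((Fintype.card (Fin m) + 1) * M)))) (by positivity)
    refine ⟨r0, hr0, ?_⟩
    intro r hr hrr f hf E hEV hE x hx y hy hxr hxy
    by_contra hcon
    push Not at hcon
    have hset := fun i => setup V hVo hVb ζ φ hφζ g hg hg0 hφ (f i) 1 (hf i)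
    choose F hF1 hF2 hF3 hF4 using hset
    obtain ⟨ρ, hρd⟩ : ∃ ρ : ℝ, ρ = 2 * r / 3 := ⟨_, rfl⟩
    have hρ : 0 < ρ := by rw [hρd]; positivity
    have hrρ : 2 * r = 3 * ρ := by rw [hρd]; ring
    obtain ⟨hs1, hs2⟩ := hsm ρ hρ (by linarith)
    have hcF : ContinuousOn (fun z => ∑ i, ‖F i z‖) V :=
      continuousOn_finsetSum _ fun i _ => (hF1 i).norm
    have hc1r : c1 * r ≤ r / 2 := by nlinarith
    have hc1r' : c1 * r ≤ c * r := mul_le_mul_of_nonneg_right hc1c hr.le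
    obtain ⟨Γ, hΓ1, hΓ2, hΓ3⟩ := reach2
      ((V ∩ (fun z => ∑ i, ‖F i z‖) ⁻¹' {w | η / 2 < w}) ∩ ball ζ (3 * ρ)) E
      ((hcF.isOpen_inter_preimage hVo (isOpen_lt continuous_const continuous_id)).inter
        isOpen_ball) hE ζ (2 * r) (c1 * r) (by
        intro z hz hz3
        refine ⟨⟨hEV hz, ?_⟩, by rwa [mem_ball, dist_eq_norm, ← hrρ]⟩
        show η / 2 < ∑ i, ‖F i z‖
        obtain ⟨i, hi⟩ := hcon ⟨z, hEV hz⟩ hz hz3
        have h1 := hF2 i ⟨z, hEV hz⟩
        have h2 : η ≤ ‖F i z‖ := by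
          have h3 : F i z = (f i).1 ⟨z, hEV hz⟩ - φ (f i) := h1
          rw [h3]
          exact hi
        have h3 := Finset.single_le_sum (f := fun i => ‖F i z‖) (fun _ _ => norm_nonneg _)
          (Finset.mem_univ i)
        linarith) x y hx hy (by positivity) (by linarith) (hc1r'.trans hxy)
    have h1 := hkey V hVo g hg hg0 F hF1 M hM0 (fun i z hz => by
        have := hF3 i z hz
        rw [abs_one] at this
        rw [hM]
        exact this) ζ (η / 2) (by positivity) hF4 ρ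
      hρ (hs2.trans_le (min_le_right _ _)) Γ 0 1 zero_le_one hΓ1 (fun t ht => hΓ2 t ht)
    have h2 := hs1.trans_le (min_le_left _ _)
    have h3 : 12 * ρ * ((Fintype.card (Fin m) + 1) * M) / (η / 2) *
        ∫ z in ball ζ (8 * ρ), ‖g z‖ <
        12 * ρ * ((Fintype.card (Fin m) + 1) * M) / (η / 2) *
        (c0 * c1 * (η / 2) / (8 * ((Fintype.card (Fin m) + 1) * M))) :=
      mul_lt_mul_of_pos_left h2 (by positivity)
    have h4 : 12 * ρ * ((Fintype.card (Fin m) + 1) * M) / (η / 2) *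
        (c0 * c1 * (η / 2) / (8 * ((Fintype.card (Fin m) + 1) * M))) =
        c0 * (c1 * (3 * ρ / 2)) := by
      field_simp
      ring
    have h6 : 3 * ρ / 2 = r := by linarith
    rw [h4, h6] at h3
    have h5 := mul_le_mul_of_nonneg_left hΓ3 hc0.le
    linarith
  · -- connected sets
    intro E hEV hE hζE
    refine ⟨hcl E hEV hE hζE, ?_⟩
    intro f L hL
    by_contra hne
    have hpos : 0 < ‖L - φ f‖ := norm_pos_iff.2 (sub_ne_zero.2 hne)
    have h1 := (Metric.tendsto_nhds.1 hL) (‖L - φ f‖ / 2) (by positivity)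
    rw [eventually_comap] at h1
    have h2 := h1
    rw [eventually_nhdsWithin_iff, Metric.eventually_nhds_iff] at h2
    obtain ⟨δ, hδ, h3⟩ := h2
    obtain ⟨z, hz, hzs⟩ := exists_near V hVo hVb ζ hζ φ hφζ hφc E hEV hE hζE (Fin 2)
      ![f, coord V hVb] (min (‖L - φ f‖ / 4) (δ / 2)) (by positivity)
    rw [Fin.sum_univ_two] at hzs
    simp only [Matrix.cons_val_zero, Matrix.cons_val_one] at hzs
    have h4 : ‖f.1 z - φ f‖ ≤ ‖L - φ f‖ / 4 := by
      have := norm_nonneg ((coord V hVb).1 z - φ (coord V hVb))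
      exact (by linarith : ‖f.1 z - φ f‖ ≤ min (‖L - φ f‖ / 4) (δ / 2)).trans (min_le_left _ _)
    have h5 : ‖(z : ℂ) - ζ‖ ≤ δ / 2 := by
      have h6 := norm_nonneg (f.1 z - φ f)
      rw [hφζ] at hzs
      have h7 : (coord V hVb).1 z = (z : ℂ) := rfl
      rw [h7] at hzs
      exact (by linarith : ‖(z : ℂ) - ζ‖ ≤ min (‖L - φ f‖ / 4) (δ / 2)).trans (min_le_right _ _)
    have h6 := h3 (y := (z : ℂ)) (by rw [dist_eq_norm]; linarith) hz z rfl
    rw [dist_eq_norm] at h6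
    have h7 : ‖L - φ f‖ ≤ ‖f.1 z - φ f‖ + ‖f.1 z - L‖ := by
      calc ‖L - φ f‖ = ‖(f.1 z - φ f) - (f.1 z - L)‖ := by ring_nf
        _ ≤ _ := norm_sub_le _ _
    linarith
  · -- arcs
    intro γ hγ hγζ
    have hmc : MapClusterPt (fun f => φ f) (comap Subtype.val (𝓝 (1 : ℝ)))
        (fun t => (fun f => f.1 (γ t) : HInf V → ℂ)) := by
      rw [mapClusterPt_iff_frequently]
      intro s hs
      rw [frequently_iff]
      intro U hU
      rw [mem_comap] at hU
      obtain ⟨U', hU', hUU⟩ := hU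
      obtain ⟨δ, hδ, hδU⟩ := Metric.mem_nhds_iff.1 hU'
      obtain ⟨t1, ht1, ht1', ht1δ⟩ : ∃ t1 : ℝ, 0 ≤ t1 ∧ t1 < 1 ∧ 1 - t1 < δ := by
        refine ⟨max 0 (1 - δ / 2), le_max_left _ _, max_lt one_pos (by linarith), ?_⟩
        have := le_max_right 0 (1 - δ / 2)
        linarith
      have hsub : Ico t1 1 ⊆ Ico (0 : ℝ) 1 := Ico_subset_Ico ht1 le_rfl
      obtain ⟨E, hEd⟩ : ∃ E : Set ℂ, E = (fun t : Ico (0 : ℝ) 1 => (γ t : ℂ)) ''
          {t | t1 ≤ (t : ℝ)} := ⟨_, rfl⟩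
      have hEV : E ⊆ V := by
        rw [hEd]
        rintro _ ⟨t, -, rfl⟩
        exact (γ t).2
      have hEc : IsPreconnected E := by
        rw [hEd]
        refine IsPreconnected.image ?_ _ (continuous_subtype_val.comp hγ).continuousOn
        have h1 : Topology.IsInducing (Subtype.val : Ico (0 : ℝ) 1 → ℝ) :=
          Topology.IsInducing.subtypeVal
        rw [← h1.isPreconnected_image]
        have h2 : (Subtype.val : Ico (0 : ℝ) 1 → ℝ) '' {t | t1 ≤ (t : ℝ)} = Ico t1 1 := by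
          ext w
          constructor
          · rintro ⟨t, ht, rfl⟩
            exact ⟨ht, t.2.2⟩
          · intro hw
            exact ⟨⟨w, hsub hw⟩, hw.1, rfl⟩
        rw [h2]
        exact isPreconnected_Ico
      have hζE : ζ ∈ closure E := by
        have hne : (comap (Subtype.val : Ico (0 : ℝ) 1 → ℝ) (𝓝 (1 : ℝ))).NeBot := by
          rw [← mem_closure_iff_comap_neBot, closure_Ico (by norm_num)]
          exact ⟨zero_le_one, le_rfl⟩
        refine mem_closure_of_tendsto hγζ ?_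
        have hmem : {t : Ico (0 : ℝ) 1 | t1 ≤ (t : ℝ)} ∈
            comap (Subtype.val : Ico (0 : ℝ) 1 → ℝ) (𝓝 (1 : ℝ)) :=
          ⟨Ioi t1, Ioi_mem_nhds ht1', fun t ht =>
            (le_of_lt (show t1 < (t : ℝ) from ht) : t1 ≤ (t : ℝ))⟩
        filter_upwards [hmem] with t ht
        rw [hEd]
        exact ⟨t, ht, rfl⟩
      obtain ⟨χ, hχs, z, hz, hχ⟩ := mem_closure_iff_nhds.1 (hcl E hEV hEc hζE) s hs
      rw [hEd] at hz
      obtain ⟨t, ht, htz⟩ := hz
      refine ⟨t, hUU ?_, ?_⟩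
      · apply hδU
        rw [mem_ball, Real.dist_eq, abs_lt]
        have := t.2.2
        have h8 : t1 ≤ (t : ℝ) := ht
        constructor <;> linarith
      · have h9 : γ t = z := Subtype.ext htz
        rw [h9, ← hχ]
        exact hχs
    refine ⟨hmc, ?_⟩
    intro f L hL
    have h1 : MapClusterPt (φ f) (comap Subtype.val (𝓝 (1 : ℝ))) (fun t => f.1 (γ t)) := by
      rw [mapClusterPt_iff_frequently]
      intro s hs
      have h2 := (mapClusterPt_iff_frequently.1 hmc) ((fun χ : HInf V → ℂ => χ f) ⁻¹' s)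
        ((continuous_apply f).continuousAt.preimage_mem_nhds hs)
      exact h2
    have h2 : (𝓝 (φ f) ⊓ 𝓝 L).NeBot := h1.neBot.mono (inf_le_inf_left _ hL)
    exact (eq_of_nhds_neBot h2).symm

end Pool.Agent.Results.MP_128c63_an.ConnectedSetsAccumulate
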